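import Mathlib

namespace Pool.Agent.Results.MP_4bc86c_co.Xor

lemma walk_sum {V K : Type} [Field K] [CharP K 2] (e : V → K) {G : SimpleGraph V} {u v : V}
    (p : G.Walk u v) :
    (p.edges.map (Sym2.lift ⟨fun x y => e x + e y, fun _ _ => add_comm _ _⟩)).sum = e u + e v := by
  induction p with
  | nil => simp [CharTwo.add_self_eq_zero]
  | cons h q ih =>
    rename_i a b c
    simp only [SimpleGraph.Walk.edges_cons, List.map_cons, List.sum_cons, ih, Sym2.lift_mk]
    have := CharTwo.add_self_eq_zero (e b)
    linear_combination this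

theorem result : ∀ k : ℕ, 3 ≤ k → ∃ c : Sym2 (Fin (2 ^ k)) → Fin (2 ^ k - 1),
    (∀ x y z : Fin (2 ^ k), x ≠ y → x ≠ z → y ≠ z → c s(x, y) ≠ c s(x, z)) ∧
    ∀ (v : Fin (2 ^ k)) (p : (⊤ : SimpleGraph (Fin (2 ^ k))).Walk v v),
      p.IsCycle → p.length = 2 ^ k - 2 → ¬ (p.edges.map c).Nodup := by
  classical
  intro k hk
  have : Fact (Nat.Prime 2) := ⟨Nat.prime_two⟩
  let K := GaloisField 2 k
  let _ : Fintype K := Fintype.ofFinite K
  have hcard : Fintype.card K = 2 ^ k := by
    rw [← Nat.card_eq_fintype_card]; exact GaloisField.card 2 k (by omega)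
  have h8 : 8 ≤ 2 ^ k := by
    calc 8 = 2 ^ 3 := by norm_num
      _ ≤ 2 ^ k := Nat.pow_le_pow_right (by norm_num) hk
  let e : Fin (2 ^ k) ≃ K := (Fintype.equivFinOfCardEq hcard).symm
  have hc2 : Fintype.card {g : K // g ≠ 0} = 2 ^ k - 1 := by
    rw [Fintype.card_subtype_compl, hcard]; simp
  let f : {g : K // g ≠ 0} ≃ Fin (2 ^ k - 1) := Fintype.equivFinOfCardEq hc2
  let col : K → Fin (2 ^ k - 1) := fun g => if h : g ≠ 0 then f ⟨g, h⟩ else ⟨0, by omega⟩
  let h : Sym2 (Fin (2 ^ k)) → K := Sym2.lift ⟨fun x y => e x + e y, fun _ _ => add_comm _ _⟩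
  have hne : ∀ x y : Fin (2 ^ k), x ≠ y → e x + e y ≠ 0 := by
    intro x y hxy h0
    apply hxy
    apply e.injective
    have := CharTwo.add_self_eq_zero (e y)
    linear_combination h0 - this
  refine ⟨col ∘ h, ?_, ?_⟩
  · intro x y z hxy hxz hyz hc
    simp only [Function.comp, h, Sym2.lift_mk, col, dif_pos (hne x y hxy), dif_pos (hne x z hxz)] at hc
    have := f.injective hc
    simp only [Subtype.mk.injEq, add_right_inj] at this
    exact hyz (e.injective this)
  · intro v p _ hlen hnd
    rw [← List.map_map] at hnd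
    have hnd' := List.Nodup.of_map _ hnd
    have hsum : (p.edges.map h).sum = 0 := by
      rw [walk_sum (fun x => e x) p, CharTwo.add_self_eq_zero]
    set L := p.edges.map h with hL
    have hsub : L.toFinset ⊆ Finset.univ.erase 0 := by
      intro g hg
      simp only [hL, List.mem_toFinset, List.mem_map] at hg
      obtain ⟨s, hs, rfl⟩ := hg
      have := p.edges_subset_edgeSet hs
      induction s using Sym2.ind with
      | _ x y =>
        simp only [SimpleGraph.mem_edgeSet, SimpleGraph.top_adj] at this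
        simp [h, hne x y this]
    have hcL : L.toFinset.card = 2 ^ k - 2 := by
      rw [List.toFinset_card_of_nodup hnd', hL, List.length_map, p.length_edges, hlen]
    have hc1 : (Finset.univ.erase (0 : K) \ L.toFinset).card = 1 := by
      rw [Finset.card_sdiff_of_subset hsub, hcL, Finset.card_erase_of_mem (Finset.mem_univ _),
        Finset.card_univ, hcard]
      omega
    obtain ⟨z, hz⟩ := Finset.card_eq_one.mp hc1
    have hz0 : z ≠ 0 := by
      have : z ∈ Finset.univ.erase (0 : K) \ L.toFinset := by rw [hz]; simp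
      simp only [Finset.mem_sdiff, Finset.mem_erase] at this
      exact this.1.1
    have s1 := Finset.sum_sdiff (f := fun g : K => g) hsub
    rw [hz, Finset.sum_singleton, List.sum_toFinset _ hnd', List.map_id', hsum, add_zero,
      Finset.sum_erase (f := fun g : K => g) _ rfl] at s1
    have s2 := FiniteField.sum_pow_lt_card_sub_one K 1 (by rw [hcard]; omega)
    simp only [pow_one] at s2
    exact hz0 (s1.trans s2)

end Pool.Agent.Results.MP_4bc86c_co.Xor
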